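import Pool.Agent.Helper5.RO.Goals

/-!
# Project RO, packet STR: families of rank at most one
-/

set_option autoImplicit false

namespace Pool.Agent.Helper12.RO

open Pool.Agent.Helper5.RO

section

variable {G : Type} [AddCommGroup G]

/-- `x` is a torsion element -/
def Tor (x : G) : Prop := ∃ N : ℕ, 0 < N ∧ N • x = 0

theorem tor_zero : Tor (0 : G) := ⟨1, one_pos, by simp⟩

theorem tor_add {x y : G} (hx : Tor x) (hy : Tor y) : Tor (x + y) := by
  obtain ⟨N, hN, hx⟩ := hx
  obtain ⟨M, hM, hy⟩ := hy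
  refine ⟨N * M, Nat.mul_pos hN hM, ?_⟩
  rw [nsmul_add, mul_comm N M, mul_nsmul', hx, nsmul_zero, zero_add, mul_comm M N, mul_nsmul', hy,
    nsmul_zero]

theorem tor_zsmul {x : G} (hx : Tor x) (k : ℤ) : Tor (k • x) := by
  obtain ⟨N, hN, hx⟩ := hx
  refine ⟨N, hN, ?_⟩
  rw [smul_comm, hx, smul_zero]

theorem tor_of_zsmul {x : G} {k : ℤ} (hk : k ≠ 0) (h : Tor (k • x)) : Tor x := by
  obtain ⟨N, hN, h⟩ := h
  refine ⟨N * k.natAbs, Nat.mul_pos hN (Int.natAbs_pos.2 hk), ?_⟩
  have h1 : ((N * k.natAbs : ℕ) : ℤ) • x = 0 := by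
    rcases Int.natAbs_eq k with h2 | h2
    · rw [Nat.cast_mul, ← h2, mul_zsmul, natCast_zsmul]
      exact h
    · have h3 : ((k.natAbs : ℕ) : ℤ) = -k := by omega
      rw [Nat.cast_mul, h3, mul_zsmul, natCast_zsmul, neg_zsmul, smul_neg, h, neg_zero]
  rwa [natCast_zsmul] at h1

theorem key {x y : G} {a b : ℤ} (hab : a ≠ 0 ∨ b ≠ 0) (h : Tor (a • y - b • x)) :
    ∃ (p : G) (c d : ℤ), Tor (y - c • p) ∧ Tor (x - d • p) := by
  have hg : (Int.gcd a b : ℤ) ≠ 0 := by
    intro h0
    have h1 : Int.gcd a b = 0 := by exact_mod_cast h0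
    rw [Int.gcd_eq_zero_iff] at h1
    rcases hab with h2 | h2
    · exact h2 h1.1
    · exact h2 h1.2
  obtain ⟨a', ha'⟩ : (Int.gcd a b : ℤ) ∣ a := Int.gcd_dvd_left ..
  obtain ⟨b', hb'⟩ : (Int.gcd a b : ℤ) ∣ b := Int.gcd_dvd_right ..
  have hbez : (Int.gcd a b : ℤ) = a * Int.gcdA a b + b * Int.gcdB a b := Int.gcd_eq_gcd_ab a b
  generalize (Int.gcd a b : ℤ) = g at *
  generalize Int.gcdA a b = u at *
  generalize Int.gcdB a b = v at *
  have h1 : a' * u + b' * v = 1 := by
    apply mul_left_cancel₀ hg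
    rw [mul_one]
    calc g * (a' * u + b' * v) = (g * a') * u + (g * b') * v := by ring
      _ = g := by rw [← ha', ← hb', ← hbez]
  have h2 : Tor (a' • y - b' • x) := by
    apply tor_of_zsmul hg
    rw [smul_sub, smul_smul, smul_smul, ← ha', ← hb']
    exact h
  refine ⟨v • y + u • x, b', a', ?_, ?_⟩
  · have h3 : y - b' • (v • y + u • x) = u • (a' • y - b' • x) := by
      have h4 : y = (a' * u + b' * v) • y := by rw [h1, one_smul]
      nth_rewrite 1 [h4]
      module
    rw [h3]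
    exact tor_zsmul h2 u
  · have h3 : x - a' • (v • y + u • x) = (-v) • (a' • y - b' • x) := by
      have h4 : x = (a' * u + b' * v) • x := by rw [h1, one_smul]
      nth_rewrite 1 [h4]
      module
    rw [h3]
    exact tor_zsmul h2 (-v)

theorem str_aux : ∀ (n : ℕ) (z : Fin n → G),
    (∀ i j, ∃ a b : ℤ, (a ≠ 0 ∨ b ≠ 0) ∧ Tor (a • z i - b • z j)) →
    ∃ (P : G) (a : Fin n → ℤ), ∀ i, Tor (z i - a i • P) := by
  intro n
  induction n with
  | zero => exact fun z _ => ⟨0, fun _ => 0, fun i => i.elim0⟩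
  | succ n ih =>
    intro z hz
    obtain ⟨P, a, ha⟩ := ih (fun i => z i.castSucc) (fun i j => hz i.castSucc j.castSucc)
    by_cases hall : ∀ i : Fin n, Tor (z i.castSucc)
    · refine ⟨z (Fin.last n), Fin.snoc (fun _ => 0) 1, fun i => ?_⟩
      refine Fin.lastCases ?_ (fun j => ?_) i
      · rw [Fin.snoc_last, one_smul, sub_self]
        exact tor_zero
      · rw [Fin.snoc_castSucc, zero_smul, sub_zero]
        exact hall j
    · push Not at hall
      obtain ⟨i0, hi0⟩ := hall
      have ha0 : a i0 ≠ 0 := by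
        intro h0
        apply hi0
        have := ha i0
        rwa [h0, zero_smul, sub_zero] at this
      obtain ⟨α, β, hαβ, hd⟩ := hz i0.castSucc (Fin.last n)
      have h1 : Tor ((α * a i0) • P - β • z (Fin.last n)) := by
        have h2 : (α * a i0) • P - β • z (Fin.last n) =
            (α • z i0.castSucc - β • z (Fin.last n)) + (-α) • (z i0.castSucc - a i0 • P) := by
          module
        rw [h2]
        exact tor_add hd (tor_zsmul (ha i0) _)
      have h2 : α * a i0 ≠ 0 ∨ β ≠ 0 := by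
        rcases hαβ with h | h
        · exact Or.inl (mul_ne_zero h ha0)
        · exact Or.inr h
      obtain ⟨p, c, d, hc, hd'⟩ := key h2 h1
      refine ⟨p, Fin.snoc (fun i => a i * c) d, fun i => ?_⟩
      refine Fin.lastCases ?_ (fun j => ?_) i
      · rw [Fin.snoc_last]
        exact hd'
      · rw [Fin.snoc_castSucc]
        have h3 : z j.castSucc - (a j * c) • p = (z j.castSucc - a j • P) + a j • (P - c • p) := by
          module
        rw [h3]
        exact tor_add (ha j) (tor_zsmul hc _)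

end

theorem gSTR : G_STR := by
  intro G _ n z hz
  refine str_aux n z fun i j => ?_
  obtain ⟨a, b, hab, h⟩ := hz i j
  refine ⟨a, b, hab, ?_⟩
  rw [h, sub_self]
  exact tor_zero

end Pool.Agent.Helper12.RO
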